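import Pool.Agent.Lib.MP_77c30a_nt.Formula

open Pool.Agent.Lib.MP_77c30a_nt

namespace Pool.Agent.Results.MP_77c30a_nt.ContentConjecture

/-- Parts (a), (b) and (c) of the conjecture on the integer content `c_{n,k}` of the double
discriminant hold for all `n ≥ 2` and `0 ≤ k ≤ n / 2`. -/
theorem result : ∀ n : ℕ, 2 ≤ n → ∀ k : Fin (n + 1), 2 * (k : ℕ) ≤ n →
    0 < ddContent n k ∧
    ((1 ≤ (k : ℕ) → ∀ q : ℕ, q.Prime → (q ∣ ddContent n k ↔ q ∣ 2 * Nat.gcd k n)) ∧
      ((k : ℕ) = 0 → ddContent n k = 2 ^ (4 * ((n - 1) / 2)))) ∧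
    (4 * ((n - 1) / 2) ≤ padicValNat 2 (ddContent n k) ∧
      ((k : ℕ) = 0 → padicValNat 2 (ddContent n k) = 4 * ((n - 1) / 2))) ∧
    ∀ p : ℕ, p.Prime → 2 * p ∣ padicValNat p (ddContent n k) := by
  intro n hn k hk
  obtain ⟨hc, h2⟩ := formula n hn k hk 2 Nat.prime_two
  have hf := fun p hp => (formula n hn k hk p hp).2
  generalize ddContent n k = c at *
  generalize (k : ℕ) = j at *
  rw [padicValNat_self, one_mul] at h2
  have hodd : ∀ p : ℕ, p.Prime → p ≠ 2 → padicValNat p c =
      2 * min (padicValNat p j * j) (padicValNat p (n - j) * (n - j)) := by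
    intro p hp hp2
    have : padicValNat p 2 = 0 := padicValNat.eq_zero_of_not_dvd fun h =>
      hp2 ((Nat.prime_dvd_prime_iff_eq hp Nat.prime_two).1 h)
    rw [hf p hp, this, zero_mul, zero_add]
  have hne : ∀ p m : ℕ, p.Prime → m ≠ 0 → (padicValNat p m * m ≠ 0 ↔ p ∣ m) := by
    intro p m hp hm
    have : Fact p.Prime := ⟨hp⟩
    rw [dvd_iff_padicValNat_ne_zero hm]
    simp [hm]
  have hdvd : ∀ p m : ℕ, p ∣ padicValNat p m * m := by
    intro p m
    by_cases h : p ∣ m
    · exact h.mul_left _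
    · rw [padicValNat.eq_zero_of_not_dvd h, zero_mul]
      exact dvd_zero p
  have hmin : ∀ p : ℕ, p ∣ min (padicValNat p j * j) (padicValNat p (n - j) * (n - j)) := by
    intro p
    rcases min_choice (padicValNat p j * j) (padicValNat p (n - j) * (n - j)) with h | h <;>
      rw [h] <;> exact hdvd _ _
  have hzero : j = 0 → padicValNat 2 c = 4 * ((n - 1) / 2) := by
    rintro rfl
    rw [h2]
    simp only [if_true, ne_eq, not_true_eq_false, false_and, if_false, mul_zero, zero_le,
      min_eq_left, Nat.sub_zero]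
    split_ifs <;> omega
  refine ⟨Nat.pos_of_ne_zero hc, ⟨fun hj q hq => ?_, fun hj => ?_⟩, ⟨?_, hzero⟩, fun p hp => ?_⟩
  · have : Fact q.Prime := ⟨hq⟩
    rw [dvd_iff_padicValNat_ne_zero hc]
    by_cases hq2 : q = 2
    · subst hq2
      refine iff_of_true ?_ (Dvd.intro _ rfl)
      have a1 := hne 2 j hq (by omega)
      have a2 := hne 2 (n - j) hq (by omega)
      rw [h2]
      split_ifs <;> omega
    · have a1 := hne q j hq (by omega)
      have a2 := hne q (n - j) hq (by omega)
      have a3 : q ∣ 2 * Nat.gcd j n ↔ q ∣ j ∧ q ∣ n - j := by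
        rw [hq.dvd_mul, Nat.dvd_gcd_iff, Nat.prime_dvd_prime_iff_eq hq Nat.prime_two]
        constructor
        · rintro (h | ⟨h1, h2⟩)
          · exact absurd h hq2
          · exact ⟨h1, Nat.dvd_sub h2 h1⟩
        · rintro ⟨h1, h2⟩
          refine Or.inr ⟨h1, ?_⟩
          have := Nat.dvd_add h2 h1
          rwa [Nat.sub_add_cancel (by omega)] at this
      rw [hodd q hq hq2, a3, ← a1, ← a2]
      omega
  · rw [← hzero hj, ← Nat.factorization_def c Nat.prime_two]
    refine Nat.eq_pow_of_factorization_eq_single hc ?_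
    ext p
    by_cases hp2 : p = 2
    · rw [hp2, Finsupp.single_eq_same]
    · rw [Finsupp.single_eq_of_ne hp2]
      by_cases hp : p.Prime
      · rw [Nat.factorization_def c hp, hodd p hp hp2, hj]
        simp
      · exact Nat.factorization_eq_zero_of_not_prime c hp
  · rw [h2]
    split_ifs <;> omega
  · by_cases hp2 : p = 2
    · subst hp2
      have := hmin 2
      rw [h2]
      split_ifs <;> omega
    · rw [hodd p hp hp2]
      exact Nat.mul_dvd_mul_left 2 (hmin p)

end Pool.Agent.Results.MP_77c30a_nt.ContentConjecture
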