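import Pool.Agent.Lib.MP_77c30a_nt.Formula

open Pool.Agent.Lib.MP_77c30a_nt

namespace Pool.Agent.Results.MP_77c30a_nt.ContentFormula

/-- The exact value of the integer content `c_{n,k}` of the double discriminant for all `n ≥ 2`
and `0 ≤ k ≤ n / 2`. -/
theorem result : ∀ n : ℕ, 2 ≤ n → ∀ k : Fin (n + 1), 2 * (k : ℕ) ≤ n →
    ddContent n k =
      4 ^ (n - (if Even (k : ℕ) then 1 else 0) - (if Even (n - (k : ℕ)) then 1 else 0)) *
        Nat.gcd ((k : ℕ) ^ (k : ℕ)) ((n - (k : ℕ)) ^ (n - (k : ℕ))) ^ 2 := by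
  intro n hn k hk
  have hc := (formula n hn k hk 2 Nat.prime_two).1
  have hf := fun p hp => (formula n hn k hk p hp).2
  generalize ddContent n k = c at *
  generalize (k : ℕ) = j at *
  have h1 : j ^ j ≠ 0 := by
    rcases Nat.eq_zero_or_pos j with h | h
    · simp [h]
    · positivity
  have h2 : (n - j) ^ (n - j) ≠ 0 := pow_ne_zero _ (by omega)
  have h3 : Nat.gcd (j ^ j) ((n - j) ^ (n - j)) ≠ 0 := Nat.gcd_ne_zero_left h1
  refine Nat.eq_of_factorization_eq hc (by positivity) fun p => ?_
  by_cases hp : p.Prime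
  · rw [Nat.factorization_mul (by positivity) (by positivity), Nat.factorization_pow,
      Nat.factorization_pow, Nat.factorization_gcd h1 h2, Nat.factorization_pow,
      Nat.factorization_pow, show 4 = 2 ^ 2 from rfl, Nat.factorization_pow]
    simp only [Finsupp.add_apply, Finsupp.smul_apply, Finsupp.inf_apply, smul_eq_mul,
      Nat.factorization_def _ hp]
    rw [hf p hp, mul_comm j, mul_comm (n - j)]
    congr 1
    by_cases hp2 : p = 2
    · subst hp2
      simp only [padicValNat_self, even_iff_two_dvd]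
      split_ifs <;> omega
    · have : padicValNat p 2 = 0 := padicValNat.eq_zero_of_not_dvd fun h =>
        hp2 ((Nat.prime_dvd_prime_iff_eq hp Nat.prime_two).1 h)
      simp [this]
  · simp [Nat.factorization_eq_zero_of_not_prime _ hp]

end Pool.Agent.Results.MP_77c30a_nt.ContentFormula
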